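import Pool.Agent.Helper59.SL.GoalsG

/-!
# Project SL, Galois part, packet SPLIT
-/

namespace Pool.Agent.Helper87.SLG.SPLIT

open Pool.Agent.Helper59.SL Pool.Agent.Helper51.SigLeo Pool.Agent.Helper51.SixExp
  Pool.Agent.Helper17.SL NumberField Module TensorProduct

universe u v w x y

theorem extEnd_id {A M : Type*} [Field A] [AddCommGroup M] (t : A ⊗[ℤ] M) :
    extEnd (AddMonoidHom.id M) t = t := by
  induction t using TensorProduct.induction_on with
  | zero => simp
  | tmul a m => simp
  | add s t hs ht => rw [map_add, hs, ht]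

theorem thm : S_SPLIT.{u, v, w, x, y} := by
  intro F N K H _ _ _ _ _ _ _ _ _ _ _ _ _ _ A _ _ ψ χ η c z _ hGen hη hcc hcN hcK hχ hz
  -- the restriction to `N`
  have hr : ∀ (γ : H ≃ₐ[F] H) (t : N), γ (algebraMap N H t) =
      algebraMap N H (AlgEquiv.restrictNormalHom N γ t) := fun γ t =>
    (AlgEquiv.restrictNormal_commutes γ N t).symm
  have hrc : AlgEquiv.restrictNormalHom N c = 1 := by
    ext t
    apply (algebraMap N H).injective
    rw [← hr, hcN]
    rfl
  have hηc : η c = -1 := by
    rcases Int.units_eq_one_or (η c) with h | h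
    · exfalso
      obtain ⟨t, ht⟩ := hcK
      exact ht ((hη c).1 h t)
    · exact h
  -- `c` is central
  have hcomm : ∀ γ : H ≃ₐ[F] H, γ * c = c * γ := by
    intro γ
    have h1 : γ * c * γ⁻¹ * c⁻¹ = 1 := by
      apply hGen
      · apply (hη _).1
        rw [map_mul, map_mul, map_mul, map_inv, map_inv, mul_inv_eq_one, mul_comm (η γ),
          mul_inv_cancel_right]
      · intro t
        have h2 : AlgEquiv.restrictNormalHom N (γ * c * γ⁻¹ * c⁻¹) = 1 := by
          rw [map_mul, map_mul, map_mul, map_inv, map_inv, hrc, mul_one, mul_inv_cancel, inv_one,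
            mul_one]
        rw [hr, h2]
        rfl
    rw [mul_inv_eq_one, mul_inv_eq_iff_eq_mul] at h1
    exact h1
  -- the action of the elements which are trivial on `K`
  have hact : ∀ γ : H ≃ₐ[F] H, η γ = 1 →
      extEnd (unitsHom γ) z = (ψ (AlgEquiv.restrictNormalHom N γ) : A) • z := by
    intro γ hγ
    let g : H ≃ₐ[K] H := AlgEquiv.ofRingEquiv (f := γ.toRingEquiv) (fun t => (hη γ).1 hγ t)
    have h1 := hz g
    have h2 : χ g = ψ (AlgEquiv.restrictNormalHom N γ) := hχ g _ (fun t => hr γ t)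
    have h3 : unitsHom g = unitsHom γ := rfl
    rw [← h3, h1]
    show (χ g : A) • z = _
    rw [h2]
  set C := extEnd (k := A) (unitsHom c) with hC
  have hmul : ∀ (γ δ : H ≃ₐ[F] H) (t : A ⊗[ℤ] Additive (𝓞 H)ˣ),
      extEnd (unitsHom (γ * δ)) t = extEnd (unitsHom γ) (extEnd (unitsHom δ) t) := by
    intro γ δ t
    rw [unitsHom_mul, extEnd_comp]
  have hCC : C (C z) = z := by
    rw [hC, ← hmul, hcc]
    have h1 : unitsHom (1 : H ≃ₐ[F] H) = AddMonoidHom.id _ := rfl
    rw [h1, extEnd_id]
  have hCact : ∀ γ : H ≃ₐ[F] H, extEnd (unitsHom γ) (C z) = C (extEnd (unitsHom γ) z) := by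
    intro γ
    rw [hC, ← hmul, hcomm, hmul]
  refine ⟨(2 : A)⁻¹ • (z + C z), (2 : A)⁻¹ • (z - C z), ?_, ?_, ?_⟩
  · rw [← smul_add, show z + C z + (z - C z) = (2 : A) • z by rw [two_smul]; abel, smul_smul,
      inv_mul_cancel₀ two_ne_zero, one_smul]
  · intro γ
    rw [map_smul, map_add, hCact]
    rcases Int.units_eq_one_or (η γ) with h | h
    · rw [hact γ h, map_smul, ← smul_add, smul_comm]
    · have h1 : η (γ * c) = 1 := by rw [map_mul, h, hηc]; rfl
      have h2 := hact _ h1
      rw [map_mul, hrc, mul_one] at h2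
      have h3 : extEnd (unitsHom γ) z =
          (ψ (AlgEquiv.restrictNormalHom N γ) : A) • C z := by
        calc extEnd (unitsHom γ) z = extEnd (unitsHom γ) (C (C z)) := by rw [hCC]
          _ = extEnd (unitsHom (γ * c)) (C z) := by rw [hmul]
          _ = C (extEnd (unitsHom (γ * c)) z) := by rw [hCact]
          _ = _ := by rw [h2, map_smul]
      rw [h3, map_smul, hCC, ← smul_add, smul_comm, add_comm]
  · intro γ
    beta_reduce
    rw [map_smul, map_sub, hCact]
    rcases Int.units_eq_one_or (η γ) with h | h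
    · rw [hact γ h, map_smul, ← smul_sub, smul_comm, h]
      simp
    · have h1 : η (γ * c) = 1 := by rw [map_mul, h, hηc]; rfl
      have h2 := hact _ h1
      rw [map_mul, hrc, mul_one] at h2
      have h3 : extEnd (unitsHom γ) z =
          (ψ (AlgEquiv.restrictNormalHom N γ) : A) • C z := by
        calc extEnd (unitsHom γ) z = extEnd (unitsHom γ) (C (C z)) := by rw [hCC]
          _ = extEnd (unitsHom (γ * c)) (C z) := by rw [hmul]
          _ = C (extEnd (unitsHom (γ * c)) z) := by rw [hCact]
          _ = _ := by rw [h2, map_smul]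
      rw [h3, map_smul, hCC, ← smul_sub, smul_comm, h, ← neg_sub z (C z), smul_neg, smul_neg]
      simp

end Pool.Agent.Helper87.SLG.SPLIT
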